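import Mathlib
import Pool.Agent.H3.CloneB

set_option autoImplicit false

namespace Pool.Agent.Results.MP_944b5f_al.GeneratedCloneEqPol

open Pool.Agent.H3.CloneT2

/-- Q1 holds: the clone `⟨T₂⟩` generated by the nowhere 1-1 binary operations on `ω` is the largest
clone on `ω` whose binary fragment is `T₂`; that is, `⟨T₂⟩ = Pol(T₂)`. -/
theorem result :
    IsPolT₂ (Gen T₂) ∧
      ∀ P : (n : ℕ) → Set (Op n), IsPolT₂ P → ∀ n : ℕ, 0 < n → Gen T₂ n = P n := by
  refine ⟨main, fun P hP n hn => ?_⟩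
  apply Set.Subset.antisymm
  · exact hP.2.2 (Gen T₂) Gen_clone main.2.1 n hn
  · exact main.2.2 P hP.1 hP.2.1 n hn

end Pool.Agent.Results.MP_944b5f_al.GeneratedCloneEqPol
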